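import Pool.Agent.BC.Stmts

/-!
LEB: the Cauchy property in the mean gives differentiability almost everywhere.
-/

set_option autoImplicit false

open Finset MeasureTheory Filter Topology

noncomputable section

namespace Pool.Agent.BC.H81

open Pool.Agent.BC

section step

variable {V : Type} [NormedAddCommGroup V] [NormedSpace ℝ V]

/-- the step function with the values `φ k` on the dyadic intervals of level `n` -/
def stp (φ : ℤ → V) (n : ℕ) (t : ℝ) : V := φ ⌊(2 : ℝ) ^ n * t⌋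

omit [NormedSpace ℝ V] in
theorem stp_meas (φ : ℤ → V) (n : ℕ) : StronglyMeasurable (stp φ n) := by
  have h1 : StronglyMeasurable φ := StronglyMeasurable.of_discrete
  have h2 : Measurable (fun t : ℝ => ⌊(2 : ℝ) ^ n * t⌋) :=
    Int.measurable_floor.comp (measurable_const_mul _)
  exact h1.comp_measurable h2

omit [NormedSpace ℝ V] in
theorem stp_int (φ : ℤ → V) (n : ℕ) (B : ℝ) (hB : ∀ k, ‖φ k‖ ≤ B) (a b : ℝ) :
    IntervalIntegrable (stp φ n) volume a b := by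
  rw [intervalIntegrable_iff]
  refine IntegrableOn.of_bound ?_ (stp_meas φ n).aestronglyMeasurable B ?_
  · rw [Set.uIoc]
    exact measure_Ioc_lt_top
  · exact Eventually.of_forall fun t => hB _

theorem stp_piece [CompleteSpace V] (φ : ℤ → V) (n : ℕ) (k : ℤ) :
    ∫ t in ((k : ℝ) / 2 ^ n)..(((k : ℝ) + 1) / 2 ^ n), stp φ n t = ((2 : ℝ) ^ n)⁻¹ • φ k := by
  have h2 : (0 : ℝ) < 2 ^ n := by positivity
  have hle : (k : ℝ) / 2 ^ n ≤ ((k : ℝ) + 1) / 2 ^ n :=
    div_le_div_of_nonneg_right (by linarith) h2.le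
  have h1 : ∫ t in ((k : ℝ) / 2 ^ n)..(((k : ℝ) + 1) / 2 ^ n), stp φ n t =
      ∫ t in ((k : ℝ) / 2 ^ n)..(((k : ℝ) + 1) / 2 ^ n), φ k := by
    rw [intervalIntegral.integral_of_le hle, intervalIntegral.integral_of_le hle,
      integral_Ioc_eq_integral_Ioo, integral_Ioc_eq_integral_Ioo]
    refine setIntegral_congr_fun measurableSet_Ioo ?_
    intro t ht
    rw [Set.mem_Ioo, div_lt_iff₀ h2, lt_div_iff₀ h2] at ht
    show φ ⌊(2 : ℝ) ^ n * t⌋ = φ k
    congr 1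
    rw [Int.floor_eq_iff]
    constructor
    · linarith [ht.1]
    · linarith [ht.2]
  rw [h1, intervalIntegral.integral_const]
  congr 1
  field_simp
  ring

theorem stp_sum [CompleteSpace V] (φ : ℤ → V) (n : ℕ) (B : ℝ) (hB : ∀ k, ‖φ k‖ ≤ B) (j : ℤ) (K : ℕ) :
    ∫ t in (j : ℝ)..((j : ℝ) + (K : ℝ) / 2 ^ n), stp φ n t =
      ((2 : ℝ) ^ n)⁻¹ • ∑ r ∈ range K, φ (2 ^ n * j + (r : ℤ)) := by
  have h2 : (0 : ℝ) < 2 ^ n := by positivity
  induction K with
  | zero => simp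
  | succ K ih =>
    rw [← intervalIntegral.integral_add_adjacent_intervals
      (stp_int φ n B hB (j : ℝ) ((j : ℝ) + (K : ℝ) / 2 ^ n))
      (stp_int φ n B hB ((j : ℝ) + (K : ℝ) / 2 ^ n) _), ih, Finset.sum_range_succ, smul_add]
    congr 1
    have h3 := stp_piece φ n (2 ^ n * j + (K : ℤ))
    have h4 : (((2 ^ n * j + (K : ℤ) : ℤ) : ℝ)) / 2 ^ n = (j : ℝ) + (K : ℝ) / 2 ^ n := by
      push_cast
      field_simp
    have h5 : ((((2 ^ n * j + (K : ℤ) : ℤ) : ℝ)) + 1) / 2 ^ n =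
        (j : ℝ) + ((K + 1 : ℕ) : ℝ) / 2 ^ n := by
      push_cast
      field_simp
      ring
    rw [h4, h5] at h3
    exact h3

/-- the integral over a unit interval -/
theorem stp_unit [CompleteSpace V] (φ : ℤ → V) (n : ℕ) (B : ℝ) (hB : ∀ k, ‖φ k‖ ≤ B) (j : ℤ) :
    ∫ t in (j : ℝ)..((j : ℝ) + 1), stp φ n t = av1 n φ j := by
  have h1 := stp_sum φ n B hB j (2 ^ n)
  have h2 : (((2 ^ n : ℕ) : ℝ)) / 2 ^ n = 1 := by
    push_cast
    exact div_self (by positivity)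
  rw [h2] at h1
  rw [h1, av1]
  congr 1
  exact (Fin.sum_univ_eq_sum_range (fun r : ℕ => φ (2 ^ n * j + (r : ℤ))) (2 ^ n)).symm

end step

section curve

variable {X : Type} [NormedAddCommGroup X] [NormedSpace ℝ X]

theorem dq_le (f : ℝ → X) (hf : LipschitzWith 1 f) (n : ℕ) (k : ℤ) : ‖dq f n k‖ ≤ 1 := by
  have h2 : (0 : ℝ) < 2 ^ n := by positivity
  unfold dq
  rw [norm_smul, Real.norm_of_nonneg h2.le]
  have h1 := hf.dist_le_mul (((k : ℝ) + 1) / 2 ^ n) ((k : ℝ) / 2 ^ n)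
  rw [dist_eq_norm, Real.dist_eq] at h1
  have h3 : ((k : ℝ) + 1) / 2 ^ n - (k : ℝ) / 2 ^ n = ((2 : ℝ) ^ n)⁻¹ := by
    field_simp
    ring
  rw [h3, abs_of_pos (by positivity)] at h1
  calc (2 : ℝ) ^ n * ‖f (((k : ℝ) + 1) / 2 ^ n) - f ((k : ℝ) / 2 ^ n)‖
      ≤ (2 : ℝ) ^ n * (((1 : NNReal) : ℝ) * ((2 : ℝ) ^ n)⁻¹) :=
        mul_le_mul_of_nonneg_left h1 h2.le
    _ = 1 := by
        rw [NNReal.coe_one, one_mul]
        exact mul_inv_cancel₀ h2.ne'

/-- the difference quotients telescope -/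
theorem dq_tel (f : ℝ → X) (n : ℕ) (j : ℤ) (K : ℕ) :
    ((2 : ℝ) ^ n)⁻¹ • ∑ r ∈ range K, dq f n (2 ^ n * j + (r : ℤ)) =
      f ((j : ℝ) + (K : ℝ) / 2 ^ n) - f j := by
  have h2 : (0 : ℝ) < 2 ^ n := by positivity
  induction K with
  | zero => simp
  | succ K ih =>
    rw [Finset.sum_range_succ, smul_add, ih]
    unfold dq
    rw [smul_smul, inv_mul_cancel₀ h2.ne', one_smul]
    have h4 : (((2 ^ n * j + (K : ℤ) : ℤ) : ℝ)) / 2 ^ n = (j : ℝ) + (K : ℝ) / 2 ^ n := by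
      push_cast
      field_simp
    have h5 : ((((2 ^ n * j + (K : ℤ) : ℤ) : ℝ)) + 1) / 2 ^ n =
        (j : ℝ) + ((K + 1 : ℕ) : ℝ) / 2 ^ n := by
      push_cast
      field_simp
      ring
    rw [h4, h5]
    abel

/-- the integral of the difference quotients up to a point -/
theorem dq_prim [CompleteSpace X] (f : ℝ → X) (hf : LipschitzWith 1 f) (n : ℕ) (j : ℤ) (b : ℝ)
    (hb : (j : ℝ) ≤ b) :
    ‖(∫ t in (j : ℝ)..b, stp (dq f n) n t) - (f b - f j)‖ ≤ 2 / 2 ^ n := by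
  have h2 : (0 : ℝ) < 2 ^ n := by positivity
  have hfl : 2 ^ n * j ≤ ⌊(2 : ℝ) ^ n * b⌋ := by
    rw [Int.le_floor]
    push_cast
    exact mul_le_mul_of_nonneg_left hb h2.le
  obtain ⟨K, hK⟩ : ∃ K : ℕ, ⌊(2 : ℝ) ^ n * b⌋ = 2 ^ n * j + (K : ℤ) := by
    refine ⟨(⌊(2 : ℝ) ^ n * b⌋ - 2 ^ n * j).toNat, ?_⟩
    omega
  have hK1 : (2 : ℝ) ^ n * j + K ≤ 2 ^ n * b := by
    have := Int.floor_le ((2 : ℝ) ^ n * b)
    rw [hK] at this
    push_cast at this
    exact this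
  have hK2 : (2 : ℝ) ^ n * b < 2 ^ n * j + K + 1 := by
    have := Int.lt_floor_add_one ((2 : ℝ) ^ n * b)
    rw [hK] at this
    push_cast at this
    exact this
  obtain ⟨b', hb'⟩ : ∃ b' : ℝ, b' = (j : ℝ) + (K : ℝ) / 2 ^ n := ⟨_, rfl⟩
  have h3 : b' ≤ b := by
    rw [hb']
    have : (j : ℝ) + (K : ℝ) / 2 ^ n = (2 ^ n * j + K) / 2 ^ n := by
      field_simp
    rw [this, div_le_iff₀ h2]
    linarith
  have h4 : b - b' ≤ 1 / 2 ^ n := by
    rw [hb', le_div_iff₀ h2]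
    have : (b - ((j : ℝ) + (K : ℝ) / 2 ^ n)) * 2 ^ n = 2 ^ n * b - (2 ^ n * j + K) := by
      field_simp
    rw [this]
    linarith
  have h5 : ∫ t in (j : ℝ)..b', stp (dq f n) n t = f b' - f j := by
    rw [hb', stp_sum (dq f n) n 1 (dq_le f hf n), dq_tel]
  rw [← intervalIntegral.integral_add_adjacent_intervals
    (stp_int (dq f n) n 1 (dq_le f hf n) (j : ℝ) b') (stp_int (dq f n) n 1 (dq_le f hf n) b' b), h5]
  have h6 : ‖∫ t in b'..b, stp (dq f n) n t‖ ≤ 1 * |b - b'| :=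
    intervalIntegral.norm_integral_le_of_norm_le_const fun t _ => dq_le f hf n _
  have h7 : ‖f b' - f b‖ ≤ |b - b'| := by
    have := hf.dist_le_mul b' b
    rw [dist_eq_norm, Real.dist_eq, NNReal.coe_one, one_mul, abs_sub_comm] at this
    exact this
  have h8 : |b - b'| ≤ 1 / 2 ^ n := by
    rw [abs_of_nonneg (by linarith)]
    exact h4
  have h9 : f b' - f j + (∫ t in b'..b, stp (dq f n) n t) - (f b - f j) =
      (f b' - f b) + ∫ t in b'..b, stp (dq f n) n t := by abel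
  rw [h9]
  refine (norm_add_le _ _).trans ?_
  have h10 : (2 : ℝ) / 2 ^ n = 1 / 2 ^ n + 1 / 2 ^ n := by ring
  rw [h10]
  exact add_le_add (h7.trans h8) (h6.trans (by rw [one_mul]; exact h8))

/-- the distance of two levels in the mean -/
theorem dq_dist (f : ℝ → X) (hf : LipschitzWith 1 f) (n q : ℕ) (j : ℤ) :
    ∫ t in (j : ℝ)..((j : ℝ) + 1), ‖stp (dq f (n + q)) (n + q) t - stp (dq f n) n t‖ =
      av1 (n + q) (fun k => ‖dq f (n + q) k - dq f n (k / 2 ^ q)‖) j := by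
  rw [← stp_unit (fun k => ‖dq f (n + q) k - dq f n (k / 2 ^ q)‖) (n + q) 2 ?_ j]
  · congr 1
    funext t
    show ‖dq f (n + q) ⌊(2 : ℝ) ^ (n + q) * t⌋ - dq f n ⌊(2 : ℝ) ^ n * t⌋‖ =
      ‖dq f (n + q) ⌊(2 : ℝ) ^ (n + q) * t⌋ - dq f n (⌊(2 : ℝ) ^ (n + q) * t⌋ / 2 ^ q)‖
    have h1 : ⌊(2 : ℝ) ^ n * t⌋ = ⌊(2 : ℝ) ^ (n + q) * t⌋ / 2 ^ q := by
      have h2 := Int.floor_div_natCast ((2 : ℝ) ^ (n + q) * t) (2 ^ q)
      push_cast at h2
      rw [← h2]
      congr 1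
      rw [pow_add]
      field_simp
    rw [h1]
  · intro k
    rw [norm_norm]
    refine (norm_sub_le _ _).trans ?_
    have h1 := dq_le f hf (n + q) k
    have h2 := dq_le f hf n (k / 2 ^ q)
    linarith

end curve

theorem leb : LebStmt := by
  intro X _ _ _ f hf j hC
  obtain ⟨μ, hμ⟩ : ∃ μ : Measure ℝ, μ = volume.restrict (Set.Ioc (j : ℝ) ((j : ℝ) + 1)) :=
    ⟨_, rfl⟩
  have hfin : IsFiniteMeasure μ := by
    rw [hμ]
    exact ⟨by
      rw [Measure.restrict_apply_univ]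
      exact measure_Ioc_lt_top⟩
  have hint : ∀ n : ℕ, Integrable (stp (dq f n) n) μ := fun n =>
    Integrable.of_bound (stp_meas (dq f n) n).aestronglyMeasurable 1
      (Eventually.of_forall fun t => dq_le f hf n _)
  have hdist : ∀ n q : ℕ, dist ((hint (n + q)).toL1 (stp (dq f (n + q)) (n + q)))
      ((hint n).toL1 (stp (dq f n) n)) =
        av1 (n + q) (fun k => ‖dq f (n + q) k - dq f n (k / 2 ^ q)‖) j := by
    intro n q
    rw [dist_eq_norm, ← Integrable.toL1_sub, L1.norm_of_fun_eq_integral_norm, ← dq_dist f hf n q j,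
      intervalIntegral.integral_of_le (by linarith), hμ]
    rfl
  have hcau : CauchySeq (fun n : ℕ => (hint n).toL1 (stp (dq f n) n)) := by
    rw [Metric.cauchySeq_iff']
    intro ε hε
    obtain ⟨m, hm⟩ := hC (ε / 2) (by linarith)
    refine ⟨m, fun n hn => ?_⟩
    obtain ⟨q, rfl⟩ := Nat.exists_eq_add_of_le hn
    have h1 := hm 0 q
    rw [add_zero] at h1
    rw [hdist m q]
    linarith
  obtain ⟨G, hG⟩ := cauchySeq_tendsto_of_complete hcau
  have hGint : Integrable (G : ℝ → X) μ := L1.integrable_coeFn G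
  -- the primitive of the limit
  have hprim : ∀ b : ℝ, (j : ℝ) ≤ b → b ≤ (j : ℝ) + 1 →
      ∫ t in (j : ℝ)..b, (G : ℝ → X) t = f b - f j := by
    intro b hb1 hb2
    have h1 : Tendsto (fun n : ℕ => ∫ t in Set.Ioc (j : ℝ) b,
        ((hint n).toL1 (stp (dq f n) n) : ℝ → X) t ∂μ) atTop
          (𝓝 (∫ t in Set.Ioc (j : ℝ) b, (G : ℝ → X) t ∂μ)) :=
      ((continuous_setIntegral (Set.Ioc (j : ℝ) b)).tendsto G).comp hG
    have hres : μ.restrict (Set.Ioc (j : ℝ) b) = volume.restrict (Set.Ioc (j : ℝ) b) := by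
      rw [hμ, Measure.restrict_restrict measurableSet_Ioc]
      congr 1
      rw [Set.inter_eq_left]
      exact Set.Ioc_subset_Ioc_right hb2
    have h2 : ∀ n : ℕ, ∫ t in Set.Ioc (j : ℝ) b,
        ((hint n).toL1 (stp (dq f n) n) : ℝ → X) t ∂μ = ∫ t in (j : ℝ)..b, stp (dq f n) n t := by
      intro n
      rw [intervalIntegral.integral_of_le hb1, ← hres]
      exact integral_congr_ae (ae_restrict_of_ae (Integrable.coeFn_toL1 (hint n)))
    have h3 : ∫ t in Set.Ioc (j : ℝ) b, (G : ℝ → X) t ∂μ =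
        ∫ t in (j : ℝ)..b, (G : ℝ → X) t := by
      rw [intervalIntegral.integral_of_le hb1, hres]
    rw [h3] at h1
    have h4 : Tendsto (fun n : ℕ => ∫ t in (j : ℝ)..b, stp (dq f n) n t) atTop
        (𝓝 (f b - f j)) := by
      rw [tendsto_iff_norm_sub_tendsto_zero]
      refine squeeze_zero (fun n => norm_nonneg _) (fun n => dq_prim f hf n j b hb1) ?_
      have h5 : Tendsto (fun n : ℕ => (2 : ℝ) * (1 / 2) ^ n) atTop (𝓝 (2 * 0)) :=
        (tendsto_pow_atTop_nhds_zero_of_lt_one (by norm_num) (by norm_num)).const_mul 2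
      rw [mul_zero] at h5
      refine h5.congr fun n => ?_
      rw [one_div, inv_pow]
      rfl
    refine tendsto_nhds_unique h1 ?_
    refine h4.congr fun n => (h2 n).symm
  -- Lebesgue's differentiation theorem
  have hII : IntervalIntegrable (G : ℝ → X) volume (j : ℝ) ((j : ℝ) + 1) := by
    rw [intervalIntegrable_iff, Set.uIoc_of_le (by linarith)]
    rw [IntegrableOn, ← hμ]
    exact hGint
  filter_upwards [hII.ae_hasDerivAt_integral] with t ht
  intro htj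
  have hmem : t ∈ Set.uIcc (j : ℝ) ((j : ℝ) + 1) := by
    rw [Set.uIcc_of_le (by linarith)]
    exact ⟨htj.1.le, htj.2.le⟩
  have h1 := ht hmem (j : ℝ) (by
    rw [Set.uIcc_of_le (by linarith)]
    exact ⟨le_rfl, by linarith⟩)
  have h2 : HasDerivAt (fun b : ℝ => (∫ s in (j : ℝ)..b, (G : ℝ → X) s) + f j)
      ((G : ℝ → X) t) t := h1.add_const (f j)
  have h3 : f =ᶠ[𝓝 t] (fun b : ℝ => (∫ s in (j : ℝ)..b, (G : ℝ → X) s) + f j) := by
    filter_upwards [Ioo_mem_nhds htj.1 htj.2] with b hb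
    rw [hprim b hb.1.le hb.2.le]
    abel
  exact (h2.congr_of_eventuallyEq h3).differentiableAt

end Pool.Agent.BC.H81
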